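import Mathlib

/-!
Grid drawings of the graphs `G(p_1, …, p_k)` obtained from a triangle by repeatedly adding
`p_j` new vertices for every edge: a drawing of width `3 r + 1` and height `2 ^ (k + 1)`.
-/

set_option autoImplicit false

namespace Pool.Agent.Helper826.Wood

/-- The closed triangle with base `A B` and third corner `r` to the right of the midpoint. -/
def Reg (A B : ℝ × ℝ) (r : ℝ) (q : ℝ × ℝ) : Prop :=
  ∃ θ : ℝ, 0 ≤ θ ∧ θ ≤ 1 ∧ q.2 = A.2 + θ * (B.2 - A.2) ∧ A.1 + θ * (B.1 - A.1) ≤ q.1 ∧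
    q.1 ≤ A.1 + θ * (B.1 - A.1) + 2 * r * θ ∧ q.1 ≤ A.1 + θ * (B.1 - A.1) + 2 * r * (1 - θ)

theorem Reg.comm {A B : ℝ × ℝ} {r : ℝ} {q : ℝ × ℝ} (h : Reg A B r q) : Reg B A r q := by
  obtain ⟨θ, h0, h1, h2, h3, h4, h5⟩ := h
  exact ⟨1 - θ, by linarith, by linarith, by linarith, by linarith, by linarith, by linarith⟩

theorem Reg.mono {A B : ℝ × ℝ} {r r' : ℝ} {q : ℝ × ℝ} (h : Reg A B r' q) (hr : r' ≤ r) :
    Reg A B r q := by
  obtain ⟨θ, h0, h1, h2, h3, h4, h5⟩ := h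
  refine ⟨θ, h0, h1, h2, h3, ?_, ?_⟩
  · nlinarith [mul_le_mul_of_nonneg_right hr h0]
  · nlinarith [mul_le_mul_of_nonneg_right hr (sub_nonneg.mpr h1)]

theorem Reg.of_segment {A B : ℝ × ℝ} {r : ℝ} {q : ℝ × ℝ} (hr : 0 ≤ r)
    (h : q ∈ segment ℝ A B) : Reg A B r q := by
  rw [segment_eq_image] at h
  obtain ⟨θ, ⟨h0, h1⟩, rfl⟩ := h
  have e1 : 0 ≤ r * θ := mul_nonneg hr h0
  have e2 : 0 ≤ r * (1 - θ) := mul_nonneg hr (by linarith)
  refine ⟨θ, h0, h1, ?_, ?_, ?_, ?_⟩ <;> simp <;> linarith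

variable {A B Y Y' : ℝ × ℝ} {r r' δ δ' : ℝ} {q : ℝ × ℝ}

theorem Reg.child (h1 : Y.1 = (A.1 + B.1) / 2 + δ) (h2 : Y.2 = (A.2 + B.2) / 2) (hδ : 0 ≤ δ)
    (hr' : 0 ≤ r') (hr : δ + 2 * r' ≤ r) (h : Reg A Y r' q) : Reg A B r q := by
  obtain ⟨τ, t0, t1, e2, e3, e4, e5⟩ := h
  rw [h1] at e3 e4 e5
  rw [h2] at e2
  have m1 : 0 ≤ τ * δ := mul_nonneg t0 hδ
  have m2 : 0 ≤ τ * (r - (δ + 2 * r')) := mul_nonneg t0 (by linarith)
  have m3 : 0 ≤ r * (1 - τ) := mul_nonneg (by linarith) (by linarith)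
  exact ⟨τ / 2, by linarith, by linarith, by linarith, by linarith, by linarith, by linarith⟩

theorem Reg.old_child (h1 : Y.1 = (A.1 + B.1) / 2 + δ) (h2 : Y.2 = (A.2 + B.2) / 2)
    (hAB : A.2 ≠ B.2) (hδ : r' < δ) (h : Reg A B r' q) (h' : Reg A Y r' q) : q = A := by
  obtain ⟨θ, s0, s1, d2, d3, d4, d5⟩ := h
  obtain ⟨τ, t0, t1, e2, e3, e4, e5⟩ := h'
  rw [h1] at e3 e4 e5
  rw [h2] at e2
  have k1 : (θ - τ / 2) * (B.2 - A.2) = 0 := by linarith
  have k2 : θ = τ / 2 := by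
    rcases mul_eq_zero.mp k1 with k | k
    · linarith
    · exact absurd (by linarith) hAB
  subst k2
  have k3 : τ * (δ - r') ≤ 0 := by linarith
  have k4 : τ = 0 := by
    by_contra hc
    have : 0 < τ := lt_of_le_of_ne t0 (Ne.symm hc)
    have := mul_pos this (sub_pos.mpr hδ)
    linarith
  subst k4
  exact Prod.ext (by linarith) (by linarith)

theorem Reg.siblings (h1 : Y.1 = (A.1 + B.1) / 2 + δ) (h2 : Y.2 = (A.2 + B.2) / 2)
    (h1' : Y'.1 = (A.1 + B.1) / 2 + δ') (h2' : Y'.2 = (A.2 + B.2) / 2)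
    (hAB : A.2 ≠ B.2) (hδ : 2 * r' < δ' - δ) (h : Reg A Y r' q) (h' : Reg A Y' r' q) :
    q = A := by
  obtain ⟨θ, s0, s1, d2, d3, d4, d5⟩ := h
  obtain ⟨τ, t0, t1, e2, e3, e4, e5⟩ := h'
  rw [h1'] at e3 e4 e5
  rw [h2'] at e2
  rw [h1] at d3 d4 d5
  rw [h2] at d2
  have k1 : (θ - τ) * (B.2 - A.2) = 0 := by linarith
  have k2 : θ = τ := by
    rcases mul_eq_zero.mp k1 with k | k
    · linarith
    · exact absurd (by linarith) hAB
  subst k2
  have k3 : θ * (δ' - δ - 2 * r') ≤ 0 := by linarith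
  have k4 : θ = 0 := by
    by_contra hc
    have : 0 < θ := lt_of_le_of_ne s0 (Ne.symm hc)
    have := mul_pos this (sub_pos.mpr hδ)
    linarith
  subst k4
  exact Prod.ext (by linarith) (by linarith)

theorem Reg.two_sides (h2 : Y.2 = (A.2 + B.2) / 2) (h2' : Y'.2 = (A.2 + B.2) / 2)
    (hAB : A.2 ≠ B.2) (h : Reg A Y r' q) (h' : Reg B Y' r' q) : q = Y ∧ q = Y' := by
  obtain ⟨θ, s0, s1, d2, d3, d4, d5⟩ := h
  obtain ⟨τ, t0, t1, e2, e3, e4, e5⟩ := h'
  rw [h2] at d2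
  rw [h2'] at e2
  have k1 : (θ + τ - 2) * (B.2 - A.2) = 0 := by linarith
  have k2 : θ + τ = 2 := by
    rcases mul_eq_zero.mp k1 with k | k
    · linarith
    · exact absurd (by linarith) hAB
  have k3 : θ = 1 := by linarith
  have k4 : τ = 1 := by linarith
  subst k3
  subst k4
  exact ⟨Prod.ext (by linarith) (by linarith), Prod.ext (by linarith) (by linarith)⟩

theorem Reg.not_far (h2 : Y.2 = (A.2 + B.2) / 2) (hAB : A.2 ≠ B.2) (h : Reg B Y r' A) :
    False := by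
  obtain ⟨τ, t0, t1, e2, e3, e4, e5⟩ := h
  rw [h2] at e2
  have k1 : (2 - τ) * (B.2 - A.2) = 0 := by linarith
  rcases mul_eq_zero.mp k1 with k | k
  · linarith
  · exact hAB (by linarith)


/-- The given description of the graphs `G(p_1, …, p_k)`. -/
structure Hyp {n : ℕ} (G : SimpleGraph (Fin n)) (k : ℕ) (p : ℕ → ℕ) (lev : Fin n → ℕ) : Prop where
  pos : ∀ j : ℕ, 1 ≤ j → j ≤ k → 0 < p j
  lev_le : ∀ v, lev v ≤ k
  three : {v : Fin n | lev v = 0}.ncard = 3
  base : ∀ u v : Fin n, lev u = 0 → lev v = 0 → u ≠ v → G.Adj u v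
  same : ∀ u v : Fin n, G.Adj u v → lev u = lev v → lev u = 0
  par : ∀ x : Fin n, 1 ≤ lev x → ∃ v w : Fin n, v ≠ w ∧ G.Adj v w ∧ lev v < lev x ∧
            lev w < lev x ∧ G.Adj x v ∧ G.Adj x w ∧
            ∀ u : Fin n, G.Adj x u → lev u < lev x → u = v ∨ u = w
  cnt : ∀ j : ℕ, 1 ≤ j → j ≤ k → ∀ v w : Fin n, G.Adj v w → lev v < j → lev w < j →
            {x : Fin n | lev x = j ∧ G.Adj x v ∧ G.Adj x w}.ncard = p j

def toR (q : ℤ × ℤ) : ℝ × ℝ := ((q.1 : ℝ), (q.2 : ℝ))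

theorem toR_inj {a b : ℤ × ℤ} (h : toR a = toR b) : a = b := by
  unfold toR at h
  rw [Prod.mk.injEq] at h
  exact Prod.ext (by exact_mod_cast h.1) (by exact_mod_cast h.2)

/-- The invariant of the drawing of the vertices of level at most `j`. -/
structure Inv {n : ℕ} (G : SimpleGraph (Fin n)) (lev : Fin n → ℕ) (k j : ℕ) (r Wt : ℤ)
    (P : Fin n → ℤ × ℤ) : Prop where
  dvd : ∀ u v, G.Adj u v → lev u ≤ j → lev v ≤ j → (2 : ℤ) ^ (k - j) ∣ (P u).2 - (P v).2
  ne : ∀ u v, G.Adj u v → lev u ≤ j → lev v ≤ j → (P u).2 ≠ (P v).2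
  box : ∀ u, lev u ≤ j → 0 ≤ (P u).1 ∧ (P u).1 ≤ Wt ∧ 0 ≤ (P u).2 ∧ (P u).2 ≤ 2 ^ (k + 1)
  boxE : ∀ u v, G.Adj u v → lev u ≤ j → lev v ≤ j → (P u).1 + (P v).1 + 2 * r ≤ 2 * Wt
  cross : ∀ u v u' v', G.Adj u v → G.Adj u' v' → lev u ≤ j → lev v ≤ j → lev u' ≤ j →
    lev v' ≤ j → ¬ (u = u' ∧ v = v') → ¬ (u = v' ∧ v = u') → ∀ q : ℝ × ℝ,
      Reg (toR (P u)) (toR (P v)) r q → Reg (toR (P u')) (toR (P v')) r q →
        ∃ w, (w = u ∨ w = v) ∧ (w = u' ∨ w = v') ∧ q = toR (P w)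

noncomputable def tt {n : ℕ} (G : SimpleGraph (Fin n)) (lev : Fin n → ℕ) (A B Y : Fin n) : ℕ :=
  {z : Fin n | lev z = lev Y ∧ G.Adj z A ∧ G.Adj z B ∧ z < Y}.ncard

section inv

variable {n : ℕ} {G : SimpleGraph (Fin n)} {k : ℕ} {p : ℕ → ℕ} {lev : Fin n → ℕ}

theorem tt_comm (A B Y : Fin n) : tt G lev A B Y = tt G lev B A Y := by
  unfold tt
  congr 1
  ext z
  simp only [Set.mem_ofPred_eq]
  tauto

theorem tt_lt {A B Y Z : Fin n} (hl : lev Y = lev Z) (h1 : G.Adj Y A) (h2 : G.Adj Y B)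
    (hlt : Y < Z) : tt G lev A B Y < tt G lev A B Z := by
  unfold tt
  apply Set.ncard_lt_ncard _ (Set.toFinite _)
  rw [Set.ssubset_iff_of_subset]
  · exact ⟨Y, ⟨hl, h1, h2, hlt⟩, fun h => lt_irrefl _ h.2.2.2⟩
  · rintro z ⟨a, b, c, d⟩
    exact ⟨a.trans hl, b, c, d.trans hlt⟩

theorem tt_ne {A B Y Z : Fin n} (hl : lev Y = lev Z) (h1 : G.Adj Y A) (h2 : G.Adj Y B)
    (h3 : G.Adj Z A) (h4 : G.Adj Z B) (hne : Y ≠ Z) : tt G lev A B Y ≠ tt G lev A B Z := by
  rcases lt_or_gt_of_ne hne with c | c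
  · exact (tt_lt hl h1 h2 c).ne
  · exact (tt_lt hl.symm h3 h4 c).ne'

theorem Hyp.tt_lt_p (h : Hyp G k p lev) {j : ℕ} (hj : j < k) {A B Y : Fin n} (hY : lev Y = j + 1)
    (hAB : G.Adj A B) (hA : lev A ≤ j) (hB : lev B ≤ j) (h1 : G.Adj Y A) (h2 : G.Adj Y B) :
    tt G lev A B Y + 1 ≤ p (j + 1) := by
  rw [← h.cnt (j + 1) (by omega) (by omega) A B hAB (by omega) (by omega)]
  unfold tt
  apply Nat.succ_le_of_lt
  apply Set.ncard_lt_ncard _ (Set.toFinite _)
  rw [Set.ssubset_iff_of_subset]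
  · exact ⟨Y, ⟨hY, h1, h2⟩, fun h => lt_irrefl _ h.2.2.2⟩
  · rintro z ⟨a, b, c, d⟩
    exact ⟨a.trans hY, b, c⟩

theorem Inv.step (h : Hyp G k p lev) {j : ℕ} (hj : j < k) {r r' Wt : ℤ} (hr' : 0 ≤ r')
    (hr : r = r' + p (j + 1) * (2 * r' + 1)) {P : Fin n → ℤ × ℤ} (I : Inv G lev k j r Wt P) :
    ∃ P', Inv G lev k (j + 1) r' Wt P' := by
  classical
  have hpar := h.par
  choose! pa pb hp using hpar
  obtain ⟨P', hP'⟩ : ∃ P' : Fin n → ℤ × ℤ, ∀ x, P' x = if lev x = j + 1 then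
      (((P (pa x)).1 + (P (pb x)).1) / 2 +
        (1 + r' + (2 * r' + 1) * (tt G lev (pa x) (pb x) x : ℤ)),
        ((P (pa x)).2 + (P (pb x)).2) / 2) else P x := ⟨_, fun x => rfl⟩
  have old : ∀ v, lev v ≤ j → P' v = P v := by
    intro v hv; rw [hP', if_neg (by omega)]
  have ch : ∀ Y A, lev Y = j + 1 → G.Adj Y A → lev A ≤ j → ∃ B, A ≠ B ∧ G.Adj A B ∧ G.Adj Y B ∧
      lev B ≤ j ∧ P' Y = (((P A).1 + (P B).1) / 2 +
        (1 + r' + (2 * r' + 1) * (tt G lev A B Y : ℤ)), ((P A).2 + (P B).2) / 2) := by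
    intro Y A hY hA hlA
    obtain ⟨q1, q2, q3, q4, q5, q6, q7⟩ := hp Y (by omega)
    rcases q7 A hA (by omega) with e | e
    · subst e
      exact ⟨pb Y, q1, q2, q6, by omega, by rw [hP', if_pos hY]⟩
    · subst e
      refine ⟨pa Y, q1.symm, q2.symm, q5, by omega, ?_⟩
      rw [hP', if_pos hY, tt_comm, add_comm (P (pa Y)).1, add_comm (P (pa Y)).2]
  have hh : ∀ A B, G.Adj A B → lev A ≤ j → lev B ≤ j →
      2 * (((P A).2 + (P B).2) / 2) = (P A).2 + (P B).2 := by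
    intro A B hAB hA hB
    have h1 := I.dvd A B hAB hA hB
    have h2 : (2 : ℤ) ∣ 2 ^ (k - j) := dvd_pow_self _ (by omega)
    have h3 := h2.trans h1
    omega
  -- geometry of a child
  have geo : ∀ Y A B, lev Y = j + 1 → G.Adj A B → lev A ≤ j → lev B ≤ j → G.Adj Y A → G.Adj Y B →
      P' Y = (((P A).1 + (P B).1) / 2 +
        (1 + r' + (2 * r' + 1) * (tt G lev A B Y : ℤ)), ((P A).2 + (P B).2) / 2) →
      (toR (P' Y)).2 = ((toR (P A)).2 + (toR (P B)).2) / 2 ∧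
      (toR (P' Y)).1 = ((toR (P A)).1 + (toR (P B)).1) / 2 +
        ((toR (P' Y)).1 - ((toR (P A)).1 + (toR (P B)).1) / 2) ∧
      (r' : ℝ) < (toR (P' Y)).1 - ((toR (P A)).1 + (toR (P B)).1) / 2 ∧
      (toR (P' Y)).1 - ((toR (P A)).1 + (toR (P B)).1) / 2 + 2 * (r' : ℝ) ≤ r ∧
      2 * (P' Y).1 + 4 * r' ≤ (P A).1 + (P B).1 + 2 * r ∧
      (P A).1 + (P B).1 ≤ 2 * (P' Y).1 ∧
      2 * (P' Y).2 = (P A).2 + (P B).2 := by
    intro Y A B hY hAB hA hB h1 h2 hPY
    have t1 := h.tt_lt_p hj hY hAB hA hB h1 h2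
    have t1' : (tt G lev A B Y : ℤ) + 1 ≤ p (j + 1) := by exact_mod_cast t1
    have m1 : (2 * r' + 1) * ((tt G lev A B Y : ℤ) + 1) ≤ (2 * r' + 1) * p (j + 1) :=
      mul_le_mul_of_nonneg_left t1' (by omega)
    have m2 : 0 ≤ (2 * r' + 1) * (tt G lev A B Y : ℤ) := mul_nonneg (by omega) (by positivity)
    have e1 : (P' Y).1 = ((P A).1 + (P B).1) / 2 + (1 + r' + (2 * r' + 1) * (tt G lev A B Y : ℤ)) := by
      rw [hPY]
    have e2 : (P' Y).2 = ((P A).2 + (P B).2) / 2 := by rw [hPY]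
    have e3 := hh A B hAB hA hB
    have m1' : (2 * r' + 1) * (tt G lev A B Y : ℤ) + (2 * r' + 1) ≤ r - r' := by
      rw [hr]; linarith
    generalize (2 * r' + 1) * (tt G lev A B Y : ℤ) = T at *
    have f1 : 2 * (P' Y).1 + 4 * r' ≤ (P A).1 + (P B).1 + 2 * r := by omega
    have f2 : (P A).1 + (P B).1 + 2 * r' + 1 ≤ 2 * (P' Y).1 := by omega
    have f3 : 2 * (P' Y).2 = (P A).2 + (P B).2 := by omega
    have f1' : 2 * ((P' Y).1 : ℝ) + 4 * r' ≤ (P A).1 + (P B).1 + 2 * r := by exact_mod_cast f1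
    have f2' : ((P A).1 : ℝ) + (P B).1 + 2 * r' + 1 ≤ 2 * (P' Y).1 := by exact_mod_cast f2
    have f3' : 2 * ((P' Y).2 : ℝ) = (P A).2 + (P B).2 := by exact_mod_cast f3
    unfold toR
    simp only
    exact ⟨by linarith, by linarith, by linarith, by linarith, f1, by omega, f3⟩
  have hneR : ∀ A B, G.Adj A B → lev A ≤ j → lev B ≤ j → (toR (P A)).2 ≠ (toR (P B)).2 := by
    intro A B hAB hA hB
    have := I.ne A B hAB hA hB
    unfold toR
    simp only
    exact_mod_cast this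
  have hr'R : (0 : ℝ) ≤ r' := by exact_mod_cast hr'
  have hrr : (r' : ℝ) ≤ r := by
    have : r' ≤ r := by
      rw [hr]
      have : 0 ≤ (p (j + 1) : ℤ) * (2 * r' + 1) := mul_nonneg (by positivity) (by omega)
      omega
    exact_mod_cast this
  -- old against new
  have ON : ∀ u v A Y, G.Adj u v → lev u ≤ j → lev v ≤ j → lev Y = j + 1 → G.Adj Y A → lev A ≤ j →
      ∀ q : ℝ × ℝ, Reg (toR (P' u)) (toR (P' v)) r' q → Reg (toR (P' A)) (toR (P' Y)) r' q →
      ∃ w, (w = u ∨ w = v) ∧ (w = A ∨ w = Y) ∧ q = toR (P' w) := by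
    intro u v A Y huv hu hv hY hYA hA q h1 h2
    obtain ⟨B, hAB, aAB, hYB, hB, hPY⟩ := ch Y A hY hYA hA
    obtain ⟨g1, g2, g3, g4, -, -, -⟩ := geo Y A B hY aAB hA hB hYA hYB hPY
    have hne := hneR A B aAB hA hB
    rw [old u hu, old v hv] at h1
    rw [old A hA] at h2
    by_cases c1 : u = A ∧ v = B
    · obtain ⟨rfl, rfl⟩ := c1
      refine ⟨u, Or.inl rfl, Or.inl rfl, ?_⟩
      rw [old u hu]
      exact Reg.old_child g2 g1 hne g3 h1 h2
    · by_cases c2 : u = B ∧ v = A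
      · obtain ⟨rfl, rfl⟩ := c2
        refine ⟨v, Or.inr rfl, Or.inl rfl, ?_⟩
        rw [old v hv]
        exact Reg.old_child g2 g1 hne g3 h1.comm h2
      · obtain ⟨w, w1, w2, w3⟩ := I.cross u v A B huv aAB hu hv hA hB c1 c2 q (h1.mono hrr)
          (Reg.child g2 g1 (by linarith) hr'R g4 h2)
        rcases w2 with rfl | rfl
        · exact ⟨w, w1, Or.inl rfl, by rw [old w hA]; exact w3⟩
        · exfalso
          rw [w3] at h2
          exact Reg.not_far (by rw [g1]; ring) hne.symm h2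
  -- new against new
  have NN : ∀ A Y C Z, lev Y = j + 1 → G.Adj Y A → lev A ≤ j → lev Z = j + 1 → G.Adj Z C →
      lev C ≤ j → ¬ (A = C ∧ Y = Z) →
      ∀ q : ℝ × ℝ, Reg (toR (P' A)) (toR (P' Y)) r' q → Reg (toR (P' C)) (toR (P' Z)) r' q →
      ∃ w, (w = A ∨ w = Y) ∧ (w = C ∨ w = Z) ∧ q = toR (P' w) := by
    intro A Y C Z hY hYA hA hZ hZC hC hne q h1 h2
    obtain ⟨B, hAB, aAB, hYB, hB, hPY⟩ := ch Y A hY hYA hA
    obtain ⟨g1, g2, g3, g4, -, -, -⟩ := geo Y A B hY aAB hA hB hYA hYB hPY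
    obtain ⟨D, hCD, aCD, hZD, hD, hPZ⟩ := ch Z C hZ hZC hC
    obtain ⟨k1, k2, k3, k4, -, -, -⟩ := geo Z C D hZ aCD hC hD hZC hZD hPZ
    have hnAB := hneR A B aAB hA hB
    have hnCD := hneR C D aCD hC hD
    rw [old A hA] at h1
    rw [old C hC] at h2
    by_cases c1 : A = C ∧ B = D
    · obtain ⟨rfl, rfl⟩ := c1
      have hYZ : Y ≠ Z := fun e => hne ⟨rfl, e⟩
      refine ⟨A, Or.inl rfl, Or.inl rfl, ?_⟩
      rw [old A hA]
      have key : ∀ Y Z, P' Y = (((P A).1 + (P B).1) / 2 +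
          (1 + r' + (2 * r' + 1) * (tt G lev A B Y : ℤ)), ((P A).2 + (P B).2) / 2) →
          P' Z = (((P A).1 + (P B).1) / 2 +
          (1 + r' + (2 * r' + 1) * (tt G lev A B Z : ℤ)), ((P A).2 + (P B).2) / 2) →
          tt G lev A B Y < tt G lev A B Z →
          2 * (r' : ℝ) < ((toR (P' Z)).1 - ((toR (P A)).1 + (toR (P B)).1) / 2) -
            ((toR (P' Y)).1 - ((toR (P A)).1 + (toR (P B)).1) / 2) := by
        intro Y Z e1 e2 e3
        have e3' : (tt G lev A B Y : ℤ) + 1 ≤ tt G lev A B Z := by exact_mod_cast e3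
        have m1 : (2 * r' + 1) * ((tt G lev A B Y : ℤ) + 1) ≤
            (2 * r' + 1) * (tt G lev A B Z : ℤ) := mul_le_mul_of_nonneg_left e3' (by omega)
        have e4 : (P' Z).1 - (P' Y).1 ≥ 2 * r' + 1 := by
          rw [e1, e2]
          simp only
          linarith
        have e5 : ((P' Z).1 : ℝ) - (P' Y).1 ≥ 2 * r' + 1 := by exact_mod_cast e4
        unfold toR
        simp only
        linarith
      rcases lt_or_gt_of_ne (tt_ne (hY.trans hZ.symm) hYA hYB hZC hZD hYZ) with c | c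
      · exact Reg.siblings g2 g1 k2 k1 hnAB (key Y Z hPY hPZ c) h1 h2
      · exact Reg.siblings k2 k1 g2 g1 hnAB (key Z Y hPZ hPY c) h2 h1
    · by_cases c2 : A = D ∧ B = C
      · obtain ⟨rfl, rfl⟩ := c2
        obtain ⟨q1, q2⟩ := Reg.two_sides g1 (by rw [k1]; ring) hnAB h1 h2
        by_cases hYZ : Y = Z
        · subst hYZ
          exact ⟨Y, Or.inr rfl, Or.inr rfl, q1⟩
        · exfalso
          have e0 : P' Y = P' Z := toR_inj (q1.symm.trans q2)
          have e1 : tt G lev A B Y ≠ tt G lev A B Z :=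
            tt_ne (hY.trans hZ.symm) hYA hYB hZD hZC hYZ
          apply e1
          rw [hPY, hPZ, tt_comm B A] at e0
          have e2 := congrArg Prod.fst e0
          simp only at e2
          rw [add_comm (P B).1] at e2
          have e3 : (2 * r' + 1) * (tt G lev A B Y : ℤ) = (2 * r' + 1) * (tt G lev A B Z : ℤ) := by
            linarith
          have e4 := mul_left_cancel₀ (show (2 * r' + 1 : ℤ) ≠ 0 by omega) e3
          exact_mod_cast e4
      · obtain ⟨w, w1, w2, w3⟩ := I.cross A B C D aAB aCD hA hB hC hD c1 c2 q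
          (Reg.child g2 g1 (by linarith) hr'R g4 h1) (Reg.child k2 k1 (by linarith) hr'R k4 h2)
        rcases w1 with rfl | rfl
        · rcases w2 with rfl | rfl
          · exact ⟨w, Or.inl rfl, Or.inl rfl, by rw [old w hA]; exact w3⟩
          · exfalso
            rw [w3] at h2
            exact Reg.not_far (by rw [k1]; ring) hnCD.symm h2
        · exfalso
          rw [w3] at h1
          exact Reg.not_far (by rw [g1]; ring) hnAB.symm h1
  have cls : ∀ u v, G.Adj u v → lev u ≤ j + 1 → lev v ≤ j + 1 →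
      (lev u ≤ j ∧ lev v ≤ j) ∨ (lev u ≤ j ∧ lev v = j + 1) ∨ (lev u = j + 1 ∧ lev v ≤ j) := by
    intro u v huv hu hv
    by_cases hs : lev u = lev v
    · have := h.same u v huv hs
      omega
    · omega
  -- old or new edges: divisibility etc.
  have nw : ∀ A Y, lev Y = j + 1 → G.Adj Y A → lev A ≤ j →
      (2 : ℤ) ^ (k - (j + 1)) ∣ (P' A).2 - (P' Y).2 ∧ (P' A).2 ≠ (P' Y).2 ∧
      (P' A).1 + (P' Y).1 + 2 * r' ≤ 2 * Wt ∧ 0 ≤ (P' Y).1 ∧ (P' Y).1 ≤ Wt ∧ 0 ≤ (P' Y).2 ∧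
      (P' Y).2 ≤ 2 ^ (k + 1) := by
    intro A Y hY hYA hA
    obtain ⟨B, hAB, aAB, hYB, hB, hPY⟩ := ch Y A hY hYA hA
    obtain ⟨-, -, -, -, g5, g6, g7⟩ := geo Y A B hY aAB hA hB hYA hYB hPY
    obtain ⟨a1, a2, a3, a4⟩ := I.box A hA
    obtain ⟨b1, b2, b3, b4⟩ := I.box B hB
    have a5 := I.boxE A B aAB hA hB
    have a6 := I.ne A B aAB hA hB
    obtain ⟨c, hc⟩ := I.dvd A B aAB hA hB
    rw [old A hA]
    refine ⟨⟨c, ?_⟩, by omega, by omega, by omega, by omega, by omega, by omega⟩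
    have e1 : (2 : ℤ) ^ (k - j) = 2 * 2 ^ (k - (j + 1)) := by
      rw [← pow_succ']
      congr 1
      omega
    rw [e1] at hc
    have e2 : 2 * ((P A).2 - (P' Y).2) = 2 * (2 ^ (k - (j + 1)) * c) := by linarith
    linarith
  have r'le : r' ≤ r := by exact_mod_cast hrr
  refine ⟨P', ⟨?_, ?_, ?_, ?_, ?_⟩⟩
  · intro u v huv hu hv
    rcases cls u v huv hu hv with ⟨c1, c2⟩ | ⟨c1, c2⟩ | ⟨c1, c2⟩
    · rw [old u c1, old v c2]
      exact (pow_dvd_pow 2 (by omega)).trans (I.dvd u v huv c1 c2)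
    · exact (nw u v c2 huv.symm c1).1
    · have := (nw v u c1 huv c2).1
      rw [← neg_sub]
      exact this.neg_right
  · intro u v huv hu hv
    rcases cls u v huv hu hv with ⟨c1, c2⟩ | ⟨c1, c2⟩ | ⟨c1, c2⟩
    · rw [old u c1, old v c2]
      exact I.ne u v huv c1 c2
    · exact (nw u v c2 huv.symm c1).2.1
    · exact (nw v u c1 huv c2).2.1.symm
  · intro u hu
    by_cases c : lev u = j + 1
    · obtain ⟨v, w, q1, q2, q3, q4, q5, q6, q7⟩ := h.par u (by omega)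
      exact (nw v u c q5 (by omega)).2.2.2
    · rw [old u (by omega)]
      exact I.box u (by omega)
  · intro u v huv hu hv
    rcases cls u v huv hu hv with ⟨c1, c2⟩ | ⟨c1, c2⟩ | ⟨c1, c2⟩
    · rw [old u c1, old v c2]
      have := I.boxE u v huv c1 c2
      omega
    · exact (nw u v c2 huv.symm c1).2.2.1
    · have := (nw v u c1 huv c2).2.2.1
      omega
  · intro u v u' v' huv huv' hu hv hu' hv' n1 n2 q h1 h2
    rcases cls u v huv hu hv with ⟨c1, c2⟩ | ⟨c1, c2⟩ | ⟨c1, c2⟩ <;>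
      rcases cls u' v' huv' hu' hv' with ⟨d1, d2⟩ | ⟨d1, d2⟩ | ⟨d1, d2⟩
    · rw [old u c1, old v c2] at h1
      rw [old u' d1, old v' d2] at h2
      obtain ⟨w, w1, w2, w3⟩ := I.cross u v u' v' huv huv' c1 c2 d1 d2 n1 n2 q (h1.mono hrr)
        (h2.mono hrr)
      refine ⟨w, w1, w2, ?_⟩
      rw [old w (by rcases w1 with rfl | rfl <;> assumption)]
      exact w3
    · exact ON u v u' v' huv c1 c2 d2 huv'.symm d1 q h1 h2
    · obtain ⟨w, w1, w2, w3⟩ := ON u v v' u' huv c1 c2 d1 huv' d2 q h1 h2.comm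
      exact ⟨w, w1, w2.symm, w3⟩
    · obtain ⟨w, w1, w2, w3⟩ := ON u' v' u v huv' d1 d2 c2 huv.symm c1 q h2 h1
      exact ⟨w, w2, w1, w3⟩
    · exact NN u v u' v' c2 huv.symm c1 d2 huv'.symm d1 n1 q h1 h2
    · obtain ⟨w, w1, w2, w3⟩ := NN u v v' u' c2 huv.symm c1 d1 huv' d2 n2 q h1 h2.comm
      exact ⟨w, w1, w2.symm, w3⟩
    · obtain ⟨w, w1, w2, w3⟩ := ON u' v' v u huv' d1 d2 c1 huv c2 q h2 h1.comm
      exact ⟨w, w2.symm, w1, w3⟩
    · obtain ⟨w, w1, w2, w3⟩ := NN v u u' v' c1 huv c2 d2 huv'.symm d1 (fun e => n2 ⟨e.2, e.1⟩) q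
        h1.comm h2
      exact ⟨w, w1.symm, w2, w3⟩
    · obtain ⟨w, w1, w2, w3⟩ := NN v u v' u' c1 huv c2 d1 huv' d2 (fun e => n1 ⟨e.2, e.1⟩) q
        h1.comm h2.comm
      exact ⟨w, w1.symm, w2.symm, w3⟩

end inv


/-- Half the product of the numbers `1 + 2 p_i` over the last `m` levels, rounded down. -/
def rr (p : ℕ → ℕ) (k : ℕ) : ℕ → ℕ
  | 0 => 0
  | m + 1 => rr p k m + p (k - m) * (2 * rr p k m + 1)

section fin

variable {n : ℕ} {G : SimpleGraph (Fin n)} {k : ℕ} {p : ℕ → ℕ} {lev : Fin n → ℕ}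

theorem Inv.start (h : Hyp G k p lev) (r : ℤ) (hr : 0 ≤ r) :
    ∃ P, Inv G lev k 0 r (3 * r + 1) P := by
  classical
  obtain ⟨a, b, c, hab, hac, hbc, hs⟩ := Set.ncard_eq_three.mp h.three
  have hlev : ∀ v, lev v ≤ 0 ↔ v = a ∨ v = b ∨ v = c := by
    intro v
    have : v ∈ {v : Fin n | lev v = 0} ↔ v ∈ ({a, b, c} : Set (Fin n)) := by rw [hs]
    simpa using this
  obtain ⟨P, hP⟩ : ∃ P : Fin n → ℤ × ℤ, ∀ x, P x = if x = a then (0, 0) else
      if x = b then (0, 2 ^ (k + 1)) else (r + 1, 2 ^ k) := ⟨_, fun x => rfl⟩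
  have Pa : P a = (0, 0) := by rw [hP, if_pos rfl]
  have Pb : P b = (0, 2 ^ (k + 1)) := by rw [hP, if_neg hab.symm, if_pos rfl]
  have Pc : P c = (r + 1, 2 ^ k) := by rw [hP, if_neg hac.symm, if_neg hbc.symm]
  have h2 : (0 : ℤ) < 2 ^ k := by positivity
  have h22 : (2 : ℤ) ^ (k + 1) = 2 * 2 ^ k := by rw [pow_succ]; ring
  -- geometry
  have hrR : (0 : ℝ) ≤ r := by exact_mod_cast hr
  have hne : (toR (P a)).2 ≠ (toR (P b)).2 := by
    rw [Pa, Pb]; unfold toR
    have : (0 : ℝ) < 2 ^ (k + 1) := by positivity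
    simp only [Int.cast_zero, Int.cast_pow, Int.cast_ofNat]
    exact this.ne
  have C1 : (toR (P c)).1 = ((toR (P a)).1 + (toR (P b)).1) / 2 + ((r : ℝ) + 1) := by
    rw [Pa, Pb, Pc]; unfold toR; push_cast; ring
  have C1' : (toR (P c)).1 = ((toR (P b)).1 + (toR (P a)).1) / 2 + ((r : ℝ) + 1) := by
    rw [C1]; ring
  have C2 : (toR (P c)).2 = ((toR (P a)).2 + (toR (P b)).2) / 2 := by
    rw [Pa, Pb, Pc]; unfold toR; push_cast; ring
  have C2' : (toR (P c)).2 = ((toR (P b)).2 + (toR (P a)).2) / 2 := by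
    rw [C2]; ring
  have F1 : ∀ q, Reg (toR (P a)) (toR (P b)) r q → Reg (toR (P a)) (toR (P c)) r q →
      q = toR (P a) := fun q g1 g2 => Reg.old_child C1 C2 hne (by linarith) g1 g2
  have F2 : ∀ q, Reg (toR (P a)) (toR (P b)) r q → Reg (toR (P b)) (toR (P c)) r q →
      q = toR (P b) := fun q g1 g2 => Reg.old_child C1' C2' hne.symm (by linarith) g1.comm g2
  have F3 : ∀ q, Reg (toR (P a)) (toR (P c)) r q → Reg (toR (P b)) (toR (P c)) r q →
      q = toR (P c) := fun q g1 g2 => (Reg.two_sides C2 C2 hne g1 g2).1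
  have canon : ∀ u v, G.Adj u v → lev u ≤ 0 → lev v ≤ 0 → ∃ x y,
      ((u = x ∧ v = y) ∨ (u = y ∧ v = x)) ∧
      ((x = a ∧ y = b) ∨ (x = a ∧ y = c) ∨ (x = b ∧ y = c)) := by
    intro u v huv hu hv
    have huvne := huv.ne
    rcases (hlev u).mp hu with rfl | rfl | rfl <;> rcases (hlev v).mp hv with rfl | rfl | rfl
    · exact absurd rfl huvne
    · exact ⟨_, _, Or.inl ⟨rfl, rfl⟩, Or.inl ⟨rfl, rfl⟩⟩
    · exact ⟨_, _, Or.inl ⟨rfl, rfl⟩, Or.inr (Or.inl ⟨rfl, rfl⟩)⟩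
    · exact ⟨_, _, Or.inr ⟨rfl, rfl⟩, Or.inl ⟨rfl, rfl⟩⟩
    · exact absurd rfl huvne
    · exact ⟨_, _, Or.inl ⟨rfl, rfl⟩, Or.inr (Or.inr ⟨rfl, rfl⟩)⟩
    · exact ⟨_, _, Or.inr ⟨rfl, rfl⟩, Or.inr (Or.inl ⟨rfl, rfl⟩)⟩
    · exact ⟨_, _, Or.inr ⟨rfl, rfl⟩, Or.inr (Or.inr ⟨rfl, rfl⟩)⟩
    · exact absurd rfl huvne
  have S : ∀ x y x' y', ((x = a ∧ y = b) ∨ (x = a ∧ y = c) ∨ (x = b ∧ y = c)) →
      ((x' = a ∧ y' = b) ∨ (x' = a ∧ y' = c) ∨ (x' = b ∧ y' = c)) →
      ¬ (x = x' ∧ y = y') → ∀ q, Reg (toR (P x)) (toR (P y)) r q →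
      Reg (toR (P x')) (toR (P y')) r q →
      ∃ w, (w = x ∨ w = y) ∧ (w = x' ∨ w = y') ∧ q = toR (P w) := by
    intro x y x' y' h1 h2 h3 q g1 g2
    rcases h1 with ⟨e1, e2⟩ | ⟨e1, e2⟩ | ⟨e1, e2⟩ <;> rcases h2 with ⟨e3, e4⟩ | ⟨e3, e4⟩ | ⟨e3, e4⟩ <;>
      rw [e1, e2] at g1 <;> rw [e3, e4] at g2 <;> rw [e1, e2, e3, e4]
    · exact absurd ⟨e1.trans e3.symm, e2.trans e4.symm⟩ h3
    · exact ⟨a, Or.inl rfl, Or.inl rfl, F1 q g1 g2⟩
    · exact ⟨b, Or.inr rfl, Or.inl rfl, F2 q g1 g2⟩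
    · exact ⟨a, Or.inl rfl, Or.inl rfl, F1 q g2 g1⟩
    · exact absurd ⟨e1.trans e3.symm, e2.trans e4.symm⟩ h3
    · exact ⟨c, Or.inr rfl, Or.inr rfl, F3 q g1 g2⟩
    · exact ⟨b, Or.inl rfl, Or.inr rfl, F2 q g2 g1⟩
    · exact ⟨c, Or.inr rfl, Or.inr rfl, F3 q g2 g1⟩
    · exact absurd ⟨e1.trans e3.symm, e2.trans e4.symm⟩ h3
  have canonP : ∀ x y, ((x = a ∧ y = b) ∨ (x = a ∧ y = c) ∨ (x = b ∧ y = c)) →
      (2 : ℤ) ^ k ∣ (P x).2 - (P y).2 ∧ (P x).2 ≠ (P y).2 ∧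
      (P x).1 + (P y).1 + 2 * r ≤ 2 * (3 * r + 1) := by
    intro x y h1
    rcases h1 with ⟨rfl, rfl⟩ | ⟨rfl, rfl⟩ | ⟨rfl, rfl⟩
    · rw [Pa, Pb, h22]
      exact ⟨⟨-2, by ring⟩, by simp only; omega, by simp only; omega⟩
    · rw [Pa, Pc]
      exact ⟨⟨-1, by ring⟩, by simp only; omega, by simp only; omega⟩
    · rw [Pb, Pc, h22]
      exact ⟨⟨1, by ring⟩, by simp only; omega, by simp only; omega⟩
  refine ⟨P, ⟨?_, ?_, ?_, ?_, ?_⟩⟩
  · intro u v huv hu hv
    obtain ⟨x, y, h1, h2⟩ := canon u v huv hu hv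
    have := (canonP x y h2).1
    rcases h1 with ⟨rfl, rfl⟩ | ⟨rfl, rfl⟩
    · exact this
    · rw [← neg_sub]; exact this.neg_right
  · intro u v huv hu hv
    obtain ⟨x, y, h1, h2⟩ := canon u v huv hu hv
    have := (canonP x y h2).2.1
    rcases h1 with ⟨rfl, rfl⟩ | ⟨rfl, rfl⟩
    · exact this
    · exact this.symm
  · intro u hu
    rcases (hlev u).mp hu with rfl | rfl | rfl
    · rw [Pa]; simp only; omega
    · rw [Pb, h22]; simp only; omega
    · rw [Pc, h22]; simp only; omega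
  · intro u v huv hu hv
    obtain ⟨x, y, h1, h2⟩ := canon u v huv hu hv
    have := (canonP x y h2).2.2
    rcases h1 with ⟨rfl, rfl⟩ | ⟨rfl, rfl⟩ <;> omega
  · intro u v u' v' huv huv' hu hv hu' hv' n1 n2 q g1 g2
    obtain ⟨x, y, h1, h2⟩ := canon u v huv hu hv
    obtain ⟨x', y', h1', h2'⟩ := canon u' v' huv' hu' hv'
    rcases h1 with ⟨e1, e2⟩ | ⟨e1, e2⟩ <;> rcases h1' with ⟨e3, e4⟩ | ⟨e3, e4⟩ <;>
      rw [e1, e2] at g1 n1 n2 <;> rw [e3, e4] at g2 n1 n2 <;> rw [e1, e2, e3, e4]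
    · exact S x y x' y' h2 h2' n1 q g1 g2
    · obtain ⟨w, w1, w2, w3⟩ := S x y x' y' h2 h2' n2 q g1 g2.comm
      exact ⟨w, w1, w2.symm, w3⟩
    · obtain ⟨w, w1, w2, w3⟩ := S x y x' y' h2 h2' (fun e => n2 ⟨e.2, e.1⟩) q g1.comm g2
      exact ⟨w, w1.symm, w2, w3⟩
    · obtain ⟨w, w1, w2, w3⟩ := S x y x' y' h2 h2' (fun e => n1 ⟨e.2, e.1⟩) q g1.comm g2.comm
      exact ⟨w, w1.symm, w2.symm, w3⟩

theorem Inv.all (h : Hyp G k p lev) : ∀ j ≤ k,
    ∃ P, Inv G lev k j (rr p k (k - j) : ℤ) (3 * (rr p k k : ℤ) + 1) P := by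
  intro j
  induction j with
  | zero => intro _; exact Inv.start h _ (by positivity)
  | succ j ih =>
    intro hj
    obtain ⟨P, hP⟩ := ih (by omega)
    have e1 : k - j = (k - (j + 1)) + 1 := by omega
    have e2 : k - (k - (j + 1)) = j + 1 := by omega
    have e3 : rr p k (k - j) = rr p k (k - (j + 1)) + p (j + 1) * (2 * rr p k (k - (j + 1)) + 1) := by
      rw [e1, rr, e2]
    exact Inv.step h (by omega) (by positivity) (by rw [e3]; push_cast; ring) hP

/-- The graph has a grid drawing of width `3 r_0 + 1` and height `2 ^ (k + 1)`. -/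
theorem drawing (h : Hyp G k p lev) : ∃ P : Fin n → ℤ × ℤ, Function.Injective P ∧
    (∀ u v w : Fin n, G.Adj u v → w ≠ u → w ≠ v →
      toR (P w) ∉ segment ℝ (toR (P u)) (toR (P v))) ∧
    (∀ u v u' v', G.Adj u v → G.Adj u' v' → ¬ (u = u' ∧ v = v') →
      ¬ (u = v' ∧ v = u') → ∀ q : ℝ × ℝ, q ∈ segment ℝ (toR (P u)) (toR (P v)) →
      q ∈ segment ℝ (toR (P u')) (toR (P v')) →
        ∃ w, (w = u ∨ w = v) ∧ (w = u' ∨ w = v') ∧ q = toR (P w)) ∧
    ∀ v, 0 ≤ (P v).1 ∧ (P v).1 ≤ 3 * (rr p k k : ℤ) + 1 ∧ 0 ≤ (P v).2 ∧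
      (P v).2 ≤ 2 ^ (k + 1) := by
  obtain ⟨P, I⟩ := Inv.all h k le_rfl
  rw [Nat.sub_self] at I
  have hz : ((rr p k 0 : ℕ) : ℤ) = 0 := by simp [rr]
  rw [hz] at I
  have L := h.lev_le
  have cross : ∀ u v u' v', G.Adj u v → G.Adj u' v' → ¬ (u = u' ∧ v = v') →
      ¬ (u = v' ∧ v = u') → ∀ q : ℝ × ℝ, q ∈ segment ℝ (toR (P u)) (toR (P v)) →
      q ∈ segment ℝ (toR (P u')) (toR (P v')) →
        ∃ w, (w = u ∨ w = v) ∧ (w = u' ∨ w = v') ∧ q = toR (P w) := by
    intro u v u' v' huv huv' n1 n2 q g1 g2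
    exact I.cross u v u' v' huv huv' (L u) (L v) (L u') (L v') n1 n2 q
      (Reg.of_segment (by simp) g1) (Reg.of_segment (by simp) g2)
  have nb : ∀ u, ∃ v, G.Adj u v := by
    intro u
    by_cases hu : 1 ≤ lev u
    · obtain ⟨v, w, q1, q2, q3, q4, q5, q6, q7⟩ := h.par u hu
      exact ⟨v, q5⟩
    · obtain ⟨a, b, c, hab, hac, hbc, hs⟩ := Set.ncard_eq_three.mp h.three
      have ha : lev a = 0 := by
        have : a ∈ {v : Fin n | lev v = 0} := by rw [hs]; simp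
        exact this
      have hb : lev b = 0 := by
        have : b ∈ {v : Fin n | lev v = 0} := by rw [hs]; simp
        exact this
      by_cases c : u = a
      · subst c; exact ⟨b, h.base _ _ (by omega) hb hab⟩
      · exact ⟨a, h.base _ _ (by omega) ha c⟩
  have inj : Function.Injective P := by
    intro u w huw
    by_contra hne
    obtain ⟨u1, hu1⟩ := nb u
    obtain ⟨w1, hw1⟩ := nb w
    have hu := I.ne u u1 hu1 (L u) (L u1)
    have hw := I.ne w w1 hw1 (L w) (L w1)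
    obtain ⟨t, t1, t2, t3⟩ := cross u u1 w w1 hu1 hw1 (fun e => hne e.1)
      (by
        rintro ⟨e1, e2⟩
        apply hw
        rw [← e1, huw]) (toR (P u)) (left_mem_segment _ _ _)
      (by rw [huw]; exact left_mem_segment _ _ _)
    have t4 := toR_inj t3
    have e1 : t = u := by
      rcases t1 with e | e
      · exact e
      · exact absurd (by rw [← e, ← t4]) hu
    have e2 : t = w := by
      rcases t2 with e | e
      · exact e
      · exact absurd (by rw [← e, ← t4, huw]) hw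
    exact hne (e1.symm.trans e2)
  refine ⟨P, inj, ?_, cross, fun v => I.box v (L v)⟩
  · intro u v w huv hwu hwv hmem
    obtain ⟨w1, hw1⟩ := nb w
    obtain ⟨t, t1, t2, t3⟩ := cross u v w w1 huv hw1 (fun e => hwu e.1.symm)
      (fun e => hwv e.2.symm) _ hmem (left_mem_segment _ _ _)
    have t4 := inj (toR_inj t3)
    subst t4
    rcases t1 with e | e
    · exact hwu e
    · exact hwv e

/-! ### Counting -/

theorem Hyp.low (h : Hyp G k p lev) {Y A B C : Fin n} (hY : 1 ≤ lev Y) (hA : G.Adj Y A)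
    (hB : G.Adj Y B) (hC : G.Adj Y C) (lA : lev A < lev Y) (lB : lev B < lev Y)
    (lC : lev C < lev Y) (hAB : A ≠ B) (hAC : A ≠ C) : B = C := by
  obtain ⟨v, w, q1, q2, q3, q4, q5, q6, q7⟩ := h.par Y hY
  rcases q7 A hA lA with rfl | rfl <;> rcases q7 B hB lB with rfl | rfl <;>
    rcases q7 C hC lC with rfl | rfl
  · exact absurd rfl hAB
  · exact absurd rfl hAB
  · exact absurd rfl hAC
  · rfl
  · rfl
  · exact absurd rfl hAC
  · exact absurd rfl hAB
  · exact absurd rfl hAB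

open Classical in
noncomputable def DD (G : SimpleGraph (Fin n)) (lev : Fin n → ℕ) (j : ℕ) :
    Finset (Fin n × Fin n) :=
  Finset.univ.filter (fun e => G.Adj e.1 e.2 ∧ lev e.1 ≤ j ∧ lev e.2 ≤ j)

theorem DD_step (h : Hyp G k p lev) {j : ℕ} (hj : j < k) :
    (DD G lev j).card * (1 + 2 * p (j + 1)) ≤ (DD G lev (j + 1)).card := by
  classical
  set M : Finset (Fin n × Fin n) :=
    Finset.univ.filter (fun e => G.Adj e.1 e.2 ∧ lev e.1 = j + 1 ∧ lev e.2 ≤ j) with hM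
  set M' : Finset (Fin n × Fin n) :=
    Finset.univ.filter (fun e => G.Adj e.1 e.2 ∧ lev e.1 ≤ j ∧ lev e.2 = j + 1) with hM'
  have c1 : M.card ≤ M'.card := by
    apply Finset.card_le_card_of_injOn Prod.swap
    · intro e he
      simp only [hM, hM', Finset.coe_filter, Finset.mem_univ, true_and, Set.mem_ofPred_eq,
        Prod.fst_swap, Prod.snd_swap] at he ⊢
      exact ⟨he.1.symm, he.2.2, he.2.1⟩
    · exact Prod.swap_injective.injOn
  have c2 : (DD G lev j).card * p (j + 1) ≤ M.card := by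
    have e1 : ∀ e ∈ DD G lev j, (Finset.univ.filter
        (fun x : Fin n => lev x = j + 1 ∧ G.Adj x e.1 ∧ G.Adj x e.2)).card = p (j + 1) := by
      intro e he
      unfold DD at he
      simp only [Finset.mem_filter, Finset.mem_univ, true_and] at he
      have := h.cnt (j + 1) (by omega) (by omega) e.1 e.2 he.1 (by omega) (by omega)
      rw [← this, ← Set.ncard_coe_finset]
      congr 1
      ext x
      simp
    have e2 : ((DD G lev j).sigma (fun e => Finset.univ.filter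
        (fun x : Fin n => lev x = j + 1 ∧ G.Adj x e.1 ∧ G.Adj x e.2))).card =
        (DD G lev j).card * p (j + 1) := by
      rw [Finset.card_sigma, Finset.sum_congr rfl e1, Finset.sum_const, smul_eq_mul]
    rw [← e2]
    apply Finset.card_le_card_of_injOn (fun s => (s.2, s.1.1))
    · intro s hs
      simp only [DD, Finset.coe_sigma, Set.mem_sigma_iff, Finset.mem_coe, Finset.mem_filter,
        Finset.mem_univ, true_and] at hs
      simp only [hM, Finset.coe_filter, Finset.mem_univ, true_and, Set.mem_ofPred_eq]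
      exact ⟨hs.2.2.1, hs.2.1, hs.1.2.1⟩
    · rintro ⟨⟨v, w⟩, x⟩ hs ⟨⟨v', w'⟩, x'⟩ hs' heq
      simp only [DD, Finset.coe_sigma, Set.mem_sigma_iff, Finset.mem_coe, Finset.mem_filter,
        Finset.mem_univ, true_and] at hs hs'
      simp only [Prod.mk.injEq] at heq
      obtain ⟨rfl, rfl⟩ := heq
      have := h.low (Y := x) (A := v) (B := w) (C := w') (by omega) hs.2.2.1 hs.2.2.2 hs'.2.2.2
        (by omega) (by omega) (by omega) hs.1.1.ne hs'.1.1.ne
      rw [this]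
  have c3 : (DD G lev j ∪ M ∪ M').card ≤ (DD G lev (j + 1)).card := by
    apply Finset.card_le_card
    intro e he
    simp only [DD, hM, hM', Finset.mem_union, Finset.mem_filter, Finset.mem_univ, true_and] at he ⊢
    rcases he with (he | he) | he
    · exact ⟨he.1, by omega, by omega⟩
    · exact ⟨he.1, by omega, by omega⟩
    · exact ⟨he.1, by omega, by omega⟩
  have d1 : Disjoint (DD G lev j) M := by
    rw [Finset.disjoint_left]
    intro e he he'
    simp only [DD, hM, Finset.mem_filter, Finset.mem_univ, true_and] at he he'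
    omega
  have d2 : Disjoint (DD G lev j ∪ M) M' := by
    rw [Finset.disjoint_left]
    intro e he he'
    simp only [DD, hM, hM', Finset.mem_union, Finset.mem_filter, Finset.mem_univ, true_and] at he he'
    omega
  rw [Finset.card_union_of_disjoint d2, Finset.card_union_of_disjoint d1] at c3
  calc (DD G lev j).card * (1 + 2 * p (j + 1))
      = (DD G lev j).card + (DD G lev j).card * p (j + 1) + (DD G lev j).card * p (j + 1) := by
        ring
    _ ≤ (DD G lev j).card + M.card + M'.card := by omega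
    _ ≤ _ := c3

theorem DD_zero (h : Hyp G k p lev) : 6 ≤ (DD G lev 0).card := by
  classical
  set S : Finset (Fin n) := Finset.univ.filter (fun v => lev v = 0) with hS
  have e1 : S.card = 3 := by
    rw [← h.three, ← Set.ncard_coe_finset]
    congr 1
    ext x
    simp [hS]
  have e2 : S.offDiag.card = 6 := by rw [Finset.offDiag_card, e1]
  rw [← e2]
  apply Finset.card_le_card
  intro e he
  rw [Finset.mem_offDiag] at he
  simp only [hS, Finset.mem_filter, Finset.mem_univ, true_and] at he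
  simp only [DD, Finset.mem_filter, Finset.mem_univ, true_and]
  exact ⟨h.base _ _ he.1 he.2.1 he.2.2, he.1.le, he.2.1.le⟩

theorem DD_top (h : Hyp G k p lev) (j : ℕ) : (DD G lev j).card ≤ 4 * n := by
  classical
  set U : Finset (Fin n × Fin n) :=
    Finset.univ.filter (fun e => G.Adj e.1 e.2 ∧ lev e.2 ≤ lev e.1) with hU
  set U' : Finset (Fin n × Fin n) :=
    Finset.univ.filter (fun e => G.Adj e.1 e.2 ∧ lev e.1 ≤ lev e.2) with hU'
  have c1 : U'.card ≤ U.card := by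
    apply Finset.card_le_card_of_injOn Prod.swap
    · intro e he
      simp only [hU, hU', Finset.coe_filter, Finset.mem_univ, true_and, Set.mem_ofPred_eq,
        Prod.fst_swap, Prod.snd_swap] at he ⊢
      exact ⟨he.1.symm, he.2⟩
    · exact Prod.swap_injective.injOn
  have c2 : U.card ≤ 2 * n := by
    have e1 : U.card ≤ 2 * (U.image Prod.fst).card := by
      apply Finset.card_le_mul_card_image
      intro u _
      have key : ∃ v w : Fin n, ∀ x, G.Adj u x → lev x ≤ lev u → x = v ∨ x = w := by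
        by_cases hu : 1 ≤ lev u
        · obtain ⟨v, w, q1, q2, q3, q4, q5, q6, q7⟩ := h.par u hu
          refine ⟨v, w, fun x hx hl => q7 x hx (lt_of_le_of_ne hl ?_)⟩
          intro hs
          have := h.same u x hx hs.symm
          omega
        · obtain ⟨a, b, c, hab, hac, hbc, hs⟩ := Set.ncard_eq_three.mp h.three
          have hm : ∀ x, lev x = 0 → x = a ∨ x = b ∨ x = c := by
            intro x hx
            have : x ∈ {v : Fin n | lev v = 0} := hx
            rw [hs] at this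
            simpa using this
          rcases hm u (by omega) with rfl | rfl | rfl
          · refine ⟨b, c, fun x hx hl => ?_⟩
            rcases hm x (by omega) with rfl | rfl | rfl
            · exact absurd rfl hx.ne
            · exact Or.inl rfl
            · exact Or.inr rfl
          · refine ⟨a, c, fun x hx hl => ?_⟩
            rcases hm x (by omega) with rfl | rfl | rfl
            · exact Or.inl rfl
            · exact absurd rfl hx.ne
            · exact Or.inr rfl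
          · refine ⟨a, b, fun x hx hl => ?_⟩
            rcases hm x (by omega) with rfl | rfl | rfl
            · exact Or.inl rfl
            · exact Or.inr rfl
            · exact absurd rfl hx.ne
      obtain ⟨v, w, hvw⟩ := key
      have : (U.filter (fun x => x.1 = u)) ⊆ {(u, v), (u, w)} := by
        rintro ⟨x, y⟩ hx
        simp only [hU, Finset.mem_filter, Finset.mem_univ, true_and] at hx
        obtain ⟨⟨g1, g2⟩, rfl⟩ := hx
        rcases hvw y g1 g2 with rfl | rfl <;> simp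
      exact (Finset.card_le_card this).trans Finset.card_le_two
    have e2 : (U.image Prod.fst).card ≤ n := by
      have := Finset.card_le_univ (U.image Prod.fst)
      rwa [Fintype.card_fin] at this
    omega
  have c3 : (DD G lev j).card ≤ (U ∪ U').card := by
    apply Finset.card_le_card
    intro e he
    simp only [DD, Finset.mem_filter, Finset.mem_univ, true_and] at he
    simp only [hU, hU', Finset.mem_union, Finset.mem_filter, Finset.mem_univ, true_and]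
    rcases le_total (lev e.1) (lev e.2) with c | c
    · exact Or.inr ⟨he.1, c⟩
    · exact Or.inl ⟨he.1, c⟩
  have c4 := Finset.card_union_le U U'
  omega

theorem count (h : Hyp G k p lev) : 3 * (2 * rr p k k + 1) ≤ 2 * n := by
  have key : ∀ j ≤ k, 6 * (2 * rr p k k + 1) ≤ (DD G lev j).card * (2 * rr p k (k - j) + 1) := by
    intro j
    induction j with
    | zero =>
      intro _
      exact Nat.mul_le_mul_right _ (DD_zero h)
    | succ j ih =>
      intro hj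
      refine (ih (by omega)).trans ?_
      have e1 : k - j = (k - (j + 1)) + 1 := by omega
      have e2 : k - (k - (j + 1)) = j + 1 := by omega
      have e3 : rr p k (k - j) = rr p k (k - (j + 1)) +
          p (j + 1) * (2 * rr p k (k - (j + 1)) + 1) := by
        rw [e1, rr, e2]
      have e4 : 2 * rr p k (k - j) + 1 = (1 + 2 * p (j + 1)) * (2 * rr p k (k - (j + 1)) + 1) := by
        rw [e3]; ring
      rw [e4, ← mul_assoc]
      exact Nat.mul_le_mul_right _ (DD_step h (by omega))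
  have h1 := key k le_rfl
  rw [Nat.sub_self] at h1
  have h2 := DD_top h k
  simp only [rr, mul_zero, zero_add, mul_one] at h1
  omega

theorem three_pow (h : Hyp G k p lev) : 3 ^ k ≤ 2 * rr p k k + 1 := by
  have key : ∀ m ≤ k, 3 ^ m ≤ 2 * rr p k m + 1 := by
    intro m
    induction m with
    | zero => intro _; simp [rr]
    | succ m ih =>
      intro hm
      have h1 := ih (by omega)
      have h2 := h.pos (k - m) (by omega) (by omega)
      have e : 2 * rr p k (m + 1) + 1 = (1 + 2 * p (k - m)) * (2 * rr p k m + 1) := by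
        rw [rr]; ring
      rw [e, pow_succ, mul_comm]
      exact Nat.mul_le_mul (by omega) h1
  exact key k le_rfl

end fin

end Pool.Agent.Helper826.Wood
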